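import Pool.Agent.Helper2SYT.Main

/-!
# Standard Young tableaux of a square with two corner cells removed

For every `n ≥ 2` the number of standard Young tableaux of the shape `(n^n) \ (2)`, the `n × n`
square without the two rightmost cells of the top row, is
`6 (n²-2)! ((3n-4)!)² F_{n-2}² / ((6n-8)! (2n-2)! ((n-2)!)² F_{2n-4})` with
`F_m = 0! 1! ⋯ (m-1)!`.
-/

set_option autoImplicit false

namespace Pool.Agent.Results.MP_6a062b_co.SquareMinusTwoCells

open Finset Pool.Agent.Helper2SYT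

/-- The `n × n` square without the two rightmost cells of its top row. The cell in row `i` and
column `j` (counted from the top and from the left, starting with `0`) is `(i, j)`. -/
def truncatedSquare (n : ℕ) : Finset (ℕ × ℕ) :=
  (range n ×ˢ range n).filter fun c => ¬ (c.1 = 0 ∧ n ≤ c.2 + 2)

/-- `T` is a standard Young tableau of shape `D`: it is a bijection of `D` onto `{1, …, |D|}` which
increases along the rows and down the columns; outside `D` it is set to be `0`, so that it is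
determined by its values on `D`. -/
structure IsSYT (D : Finset (ℕ × ℕ)) (T : ℕ × ℕ → ℕ) : Prop where
  bij : Set.BijOn T D (Set.Icc 1 D.card)
  row : ∀ i j, (i, j) ∈ D → (i, j + 1) ∈ D → T (i, j) < T (i, j + 1)
  col : ∀ i j, (i, j) ∈ D → (i + 1, j) ∈ D → T (i, j) < T (i + 1, j)
  out : ∀ c, c ∉ D → T c = 0

/-- The number of standard Young tableaux of shape `D`. -/
noncomputable def sytCount (D : Finset (ℕ × ℕ)) : ℕ := Nat.card {T : ℕ × ℕ → ℕ // IsSYT D T}

/-- The product `0! 1! ⋯ (m-1)!`. -/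
def F (m : ℕ) : ℕ := ∏ k ∈ range m, k.factorial

theorem sytCount_eq (D : Finset (ℕ × ℕ)) : sytCount D = num Adj D := by
  unfold sytCount num
  apply Nat.card_congr
  apply Equiv.subtypeEquivRight
  intro T
  constructor
  · intro h
    refine ⟨h.bij, ?_, h.out⟩
    rintro ⟨a, b⟩ ha ⟨c, d⟩ hc hadj
    rcases hadj with ⟨h1, h2⟩ | ⟨h1, h2⟩
    · simp only at h1 h2
      subst h1 h2
      exact h.row _ _ ha hc
    · simp only at h1 h2
      subst h1 h2
      exact h.col _ _ ha hc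
  · intro h
    exact ⟨h.bij, fun i j h1 h2 => h.lt _ h1 _ h2 (Or.inl ⟨rfl, rfl⟩),
      fun i j h1 h2 => h.lt _ h1 _ h2 (Or.inr ⟨rfl, rfl⟩), h.zero⟩

theorem shape_eq (N : ℕ) :
    truncatedSquare (N + 2) = shp (Fin.cons N (full N) : Fin (N + 2) → ℕ) := by
  ext ⟨a, b⟩
  rw [mem_shp]
  unfold truncatedSquare
  simp only [mem_filter, mem_product, mem_range]
  constructor
  · rintro ⟨⟨h1, h2⟩, h3⟩
    refine ⟨⟨a, h1⟩, rfl, ?_⟩
    cases a with
    | zero =>
      change b < (Fin.cons N (full N) : Fin (N + 2) → ℕ) 0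
      rw [Fin.cons_zero]
      by_contra h
      exact h3 ⟨rfl, by omega⟩
    | succ a =>
      change b < (Fin.cons N (full N) : Fin (N + 2) → ℕ) (Fin.succ ⟨a, by omega⟩)
      rw [Fin.cons_succ]
      exact h2
  · rintro ⟨i, hi, hb⟩
    subst hi
    refine ⟨⟨i.2, ?_⟩, ?_⟩
    · revert hb
      refine Fin.cases ?_ (fun j => ?_) i
      · rw [Fin.cons_zero]; omega
      · rw [Fin.cons_succ]; intro h; exact h
    · revert hb
      refine Fin.cases ?_ (fun j => ?_) i
      · rw [Fin.cons_zero]; rintro h ⟨_, h2⟩; omega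
      · rintro _ ⟨h1, _⟩
        simp at h1

theorem card_shape (N : ℕ) : (truncatedSquare (N + 2)).card = (N + 2) ^ 2 - 2 := by
  rw [shape_eq, card_shp, Fin.sum_univ_succ, Fin.cons_zero]
  simp only [Fin.cons_succ, full]
  rw [sum_const, card_univ, Fintype.card_fin, smul_eq_mul]
  have : (N + 2) ^ 2 = N + (N + 1) * (N + 2) + 2 := by ring
  omega

theorem F_succ (m : ℕ) : F (m + 1) = F m * m.factorial := by
  unfold F
  rw [prod_range_succ]

theorem F_pos (m : ℕ) : (F m : ℝ) ≠ 0 := by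
  unfold F
  rw [Nat.cast_prod, prod_ne_zero_iff]
  intro i _
  exact_mod_cast i.factorial_ne_zero

theorem prod_lemma (m : ℕ) :
    ((m.factorial : ℝ) * ((2 * m).choose m : ℝ) *
      ∏ i : Fin m, (((i : ℕ).factorial : ℝ) ^ 2 * ((2 * m).choose i : ℝ))) * (F (2 * m + 1) : ℝ) =
    ((2 * m).factorial : ℝ) ^ (m + 1) * (F m : ℝ) ^ 2 := by
  have h1 : (∏ i : Fin m, (((i : ℕ).factorial : ℝ) ^ 2 * ((2 * m).choose i : ℝ))) *
      ∏ i : Fin m, ((2 * m - i).factorial : ℝ) = ((2 * m).factorial : ℝ) ^ m * (F m : ℝ) := by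
    have e1 : ((2 * m).factorial : ℝ) ^ m = ∏ _i : Fin m, ((2 * m).factorial : ℝ) := by
      rw [prod_const, card_univ, Fintype.card_fin]
    have e2 : (F m : ℝ) = ∏ i : Fin m, ((i : ℕ).factorial : ℝ) := by
      unfold F
      rw [Nat.cast_prod, Fin.prod_univ_eq_prod_range (fun k => ((k.factorial : ℕ) : ℝ)) m]
    rw [e1, e2, ← prod_mul_distrib, ← prod_mul_distrib]
    apply prod_congr rfl
    intro i _
    have h := Nat.choose_mul_factorial_mul_factorial (show (i : ℕ) ≤ 2 * m by omega)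
    have h' : ((2 * m).choose i : ℝ) * ((i : ℕ).factorial : ℝ) * ((2 * m - i).factorial : ℝ) =
        ((2 * m).factorial : ℝ) := by exact_mod_cast h
    rw [← h']
    ring
  have h2 : (F (2 * m + 1) : ℝ) = (F (m + 1) : ℝ) * ∏ i : Fin m, ((2 * m - i).factorial : ℝ) := by
    unfold F
    rw [show 2 * m + 1 = (m + 1) + m by ring, prod_range_add, Nat.cast_mul]
    congr 1
    rw [Fin.prod_univ_eq_prod_range (fun i => ((2 * m - i).factorial : ℝ)) m,
      ← prod_range_reflect, Nat.cast_prod]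
    apply prod_congr rfl
    intro k hk
    rw [mem_range] at hk
    congr 2
    omega
  have h3 : (m.factorial : ℝ) * ((2 * m).choose m : ℝ) * (m.factorial : ℝ) =
      ((2 * m).factorial : ℝ) := by
    have h := Nat.choose_mul_factorial_mul_factorial (show m ≤ 2 * m by omega)
    have e : 2 * m - m = m := by omega
    rw [e] at h
    have h' : ((2 * m).choose m : ℝ) * (m.factorial : ℝ) * (m.factorial : ℝ) =
        ((2 * m).factorial : ℝ) := by exact_mod_cast h
    rw [← h']; ring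
  rw [h2, F_succ]
  push_cast
  calc ((m.factorial : ℝ) * ((2 * m).choose m : ℝ) *
        ∏ i : Fin m, (((i : ℕ).factorial : ℝ) ^ 2 * ((2 * m).choose i : ℝ))) *
        ((F m : ℝ) * (m.factorial : ℝ) * ∏ i : Fin m, ((2 * m - i).factorial : ℝ))
      = ((m.factorial : ℝ) * ((2 * m).choose m : ℝ) * (m.factorial : ℝ)) * (F m : ℝ) *
        ((∏ i : Fin m, (((i : ℕ).factorial : ℝ) ^ 2 * ((2 * m).choose i : ℝ))) *
        ∏ i : Fin m, ((2 * m - i).factorial : ℝ)) := by ring
    _ = _ := by rw [h1, h3]; ring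

theorem main_large (m : ℕ) :
    (sytCount (truncatedSquare (m + 3)) : ℝ) =
      6 * (((m + 3) ^ 2 - 2).factorial : ℝ) * ((3 * m + 5).factorial : ℝ) ^ 2 *
        (F (m + 1) : ℝ) ^ 2 /
      (((6 * m + 10).factorial : ℝ) * ((2 * m + 4).factorial : ℝ) *
        ((m + 1).factorial : ℝ) ^ 2 * (F (2 * m + 2) : ℝ)) := by
  have h0 : sytCount (truncatedSquare (m + 3)) = gg (m + 1) (full (m + 1)) := by
    rw [sytCount_eq, show m + 3 = (m + 1) + 2 by ring, shape_eq]
    rfl
  have h1 := count_eq m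
  have h2 := sum_Phi m
  rw [← h1] at h2
  rw [h0]
  set g : ℝ := ((gg (m + 1) (full (m + 1)) : ℕ) : ℝ) with hg
  have h3 := prod_lemma m
  set Pr : ℝ := (m.factorial : ℝ) * ((2 * m).choose m : ℝ) *
      ∏ i : Fin m, (((i : ℕ).factorial : ℝ) ^ 2 * ((2 * m).choose i : ℝ)) with hPr
  have n1 : ((2 * m).factorial : ℝ) ^ (m + 1) ≠ 0 := by
    have : ((2 * m).factorial : ℝ) ≠ 0 := by exact_mod_cast (2 * m).factorial_ne_zero
    positivity
  have nF := F_pos (2 * m + 1)
  have h4 : Pr = ((2 * m).factorial : ℝ) ^ (m + 1) * (F m : ℝ) ^ 2 / (F (2 * m + 1) : ℝ) := by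
    rw [eq_div_iff nF]; exact h3
  rw [h4, SS_eq] at h2
  have e1 : (m + 3) ^ 2 - 2 = TT m + 1 := by
    unfold TT
    have : (m + 3) ^ 2 = m ^ 2 + 6 * m + 6 + 1 + 2 := by ring
    omega
  have e2 : 2 * m + 4 = 2 * m + 3 + 1 := by ring
  have e3 : 2 * m + 2 = 2 * m + 1 + 1 := by ring
  rw [e1, e2, e3, F_succ (2 * m + 1), F_succ m, Nat.factorial_succ (2 * m + 3)]
  rw [Nat.factorial_succ m] at h2 ⊢
  have f1 : ((TT m + 1).factorial : ℝ) ≠ 0 := by exact_mod_cast Nat.factorial_ne_zero _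
  have f2 : (m.factorial : ℝ) ≠ 0 := by exact_mod_cast Nat.factorial_ne_zero _
  have f3 : ((2 * m + 3).factorial : ℝ) ≠ 0 := by exact_mod_cast Nat.factorial_ne_zero _
  have f4 : ((2 * m + 1).factorial : ℝ) ≠ 0 := by exact_mod_cast Nat.factorial_ne_zero _
  have f5 : ((6 * m + 7).factorial : ℝ) ≠ 0 := by exact_mod_cast Nat.factorial_ne_zero _
  have f6 : ((6 * m + 10).factorial : ℝ) ≠ 0 := by exact_mod_cast Nat.factorial_ne_zero _
  have f7 : ((m : ℝ) + 1) ≠ 0 := by positivity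
  have f8 : ((m : ℝ) + 2) ≠ 0 := by positivity
  push_cast at h2 ⊢
  field_simp at h2 ⊢
  linear_combination 2 * h2

theorem main_two : sytCount (truncatedSquare 2) = 1 := by
  rw [sytCount_eq, shape_eq 0]
  have h1 : (univ.filter (Cor (Fin.cons 0 (full 0) : Fin 2 → ℕ))) = {1} := by decide
  have h2 : (univ.filter (Cor (Function.update (Fin.cons 0 (full 0) : Fin 2 → ℕ) 1
      ((Fin.cons 0 (full 0) : Fin 2 → ℕ) 1 - 1)))) = {1} := by decide
  rw [num_shp_rec _ (by decide), h1, sum_singleton, num_shp_rec _ (by decide), h2, sum_singleton]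
  have h3 : shp (Function.update (Function.update (Fin.cons 0 (full 0) : Fin 2 → ℕ) 1
      ((Fin.cons 0 (full 0) : Fin 2 → ℕ) 1 - 1)) 1
      (Function.update (Fin.cons 0 (full 0) : Fin 2 → ℕ) 1
      ((Fin.cons 0 (full 0) : Fin 2 → ℕ) 1 - 1) 1 - 1)) = ∅ := by decide
  rw [h3, num_empty]

/-- For every `n ≥ 2` the shape has `n² - 2` cells, and the number of standard Young tableaux of
this shape is given by the product formula. -/
theorem result (n : ℕ) (hn : 2 ≤ n) :
    (truncatedSquare n).card = n ^ 2 - 2 ∧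
    (sytCount (truncatedSquare n) : ℚ) =
      6 * ((n ^ 2 - 2).factorial : ℚ) * ((3 * n - 4).factorial : ℚ) ^ 2 * (F (n - 2) : ℚ) ^ 2 /
      (((6 * n - 8).factorial : ℚ) * ((2 * n - 2).factorial : ℚ) *
        ((n - 2).factorial : ℚ) ^ 2 * (F (2 * n - 4) : ℚ)) := by
  obtain ⟨N, rfl⟩ : ∃ N, n = N + 2 := ⟨n - 2, by omega⟩
  refine ⟨card_shape N, ?_⟩
  cases N with
  | zero =>
    rw [main_two]
    simp [F, Nat.factorial]
    norm_num
  | succ m =>
    have h := main_large m
    have e1 : 3 * (m + 1 + 2) - 4 = 3 * m + 5 := by omega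
    have e2 : m + 1 + 2 - 2 = m + 1 := by omega
    have e3 : 6 * (m + 1 + 2) - 8 = 6 * m + 10 := by omega
    have e4 : 2 * (m + 1 + 2) - 2 = 2 * m + 4 := by omega
    have e5 : 2 * (m + 1 + 2) - 4 = 2 * m + 2 := by omega
    have e6 : m + 1 + 2 = m + 3 := by ring
    rw [e1, e2, e3, e4, e5, e6]
    apply Rat.cast_injective (α := ℝ)
    push_cast
    exact h

end Pool.Agent.Results.MP_6a062b_co.SquareMinusTwoCells
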